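import Pool.Agent.V11225.GI.Univ

/-!
# The algebra of the isomorphism game and the full C*-algebra of a solution group
-/

namespace Pool.Agent.V11225.GI

open scoped ENNReal CStarAlgebra

/-- The relations of the isomorphism game algebra: `(p (g, h))` is a quantum permutation matrix
and `p (g, h) * p (g', h') = 0` whenever the relation (equal, adjacent, distinct and not adjacent)
of `g`, `g'` in `G` differs from the relation of `h`, `h'` in `H`. -/
structure IsoFamily {V W : Type} [Fintype V] [Fintype W] (G : SimpleGraph V) (H : SimpleGraph W)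
    {A : Type*} [CStarAlgebra A] (p : V × W → A) : Prop where
  idem : ∀ g h, p (g, h) * p (g, h) = p (g, h)
  self : ∀ g h, star (p (g, h)) = p (g, h)
  row : ∀ g, ∑ h, p (g, h) = 1
  col : ∀ h, ∑ g, p (g, h) = 1
  orth : ∀ g g' h h', ¬ ((g = g' ↔ h = h') ∧ (G.Adj g g' ↔ H.Adj h h')) →
    p (g, h) * p (g', h') = 0

/-- a unitary representation of a group in a C*-algebra -/
structure UnitaryRep {Γ : Type} [Group Γ] {A : Type*} [CStarAlgebra A] (u : Γ → A) : Prop where
  unit : ∀ g, u g ∈ unitary A
  one : u 1 = 1
  mul : ∀ g h, u (g * h) = u g * u h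

theorem norm_one_le (A : Type*) [CStarAlgebra A] : ‖(1 : A)‖ ≤ 1 := by
  rcases subsingleton_or_nontrivial A with h | h
  · rw [Subsingleton.elim (1 : A) 0, norm_zero]
    exact zero_le_one
  · rw [norm_one]

theorem norm_proj_le {A : Type*} [CStarAlgebra A] {p : A} (h1 : p * p = p) (h2 : star p = p) :
    ‖p‖ ≤ 1 := by
  have h : ‖star p * p‖ = ‖p‖ * ‖p‖ := CStarRing.norm_star_mul_self
  rw [h2, h1] at h
  by_contra hn
  push Not at hn
  nlinarith [norm_nonneg p]

theorem norm_unit_le {A : Type*} [CStarAlgebra A] {u : A} (h1 : u ∈ unitary A) : ‖u‖ ≤ 1 := by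
  have h : ‖star u * u‖ = ‖u‖ * ‖u‖ := CStarRing.norm_star_mul_self
  rw [(Unitary.mem_iff.1 h1).1] at h
  have := norm_one_le A
  by_contra hn
  push Not at hn
  nlinarith [norm_nonneg u]

section

variable {V W : Type} [Fintype V] [Fintype W]

theorem iso_bound (G : SimpleGraph V) (H : SimpleGraph W) (A : Type) [CStarAlgebra A]
    (p : V × W → A) (hp : IsoFamily G H p) (x : V × W) : ‖p x‖ ≤ 1 :=
  norm_proj_le (hp.idem x.1 x.2) (hp.self x.1 x.2)

/-- **The isomorphism game algebra `A(G, H)`**: the universal unital C*-algebra generated by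
elements `p (g, h)` with the relations `IsoFamily`. (It is realised in the product over all
families, in nonzero C*-algebras, which satisfy the relations; its universal property is
`iso_universal`.) -/
noncomputable abbrev IsoAlg (G : SimpleGraph V) (H : SimpleGraph W) : Type 1 :=
  UAlg (R := fun A _ p => IsoFamily G H p) (iso_bound G H)

/-- the generator `p (g, h)` of `A(G, H)` -/
noncomputable abbrev isoGen (G : SimpleGraph V) (H : SimpleGraph W) : V × W → IsoAlg G H :=
  gen (R := fun A _ p => IsoFamily G H p) (iso_bound G H)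

end

theorem rep_bound (Γ : Type) [Group Γ] (A : Type) [CStarAlgebra A] (u : Γ → A)
    (hu : UnitaryRep u) (x : Γ) : ‖u x‖ ≤ 1 :=
  norm_unit_le (hu.unit x)

/-- **The full C*-algebra `C*(Γ)` of a discrete group `Γ`**: the closed *-algebra generated by
`Γ` in the product over all unitary representations of `Γ` in nonzero C*-algebras, that is, the
completion of the group algebra in the largest C*-norm; its universal property is
`group_universal`. -/
noncomputable abbrev GroupCStar (Γ : Type) [Group Γ] : Type 1 :=
  UAlg (R := fun A _ u => UnitaryRep u) (rep_bound Γ)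

/-- the canonical map of `Γ` to `C*(Γ)` -/
noncomputable abbrev groupGen (Γ : Type) [Group Γ] : Γ → GroupCStar Γ :=
  gen (R := fun A _ u => UnitaryRep u) (rep_bound Γ)

/-- The relations of the solution group of the linear system `M x = b` over the field with two
elements; the generators are `some i` (for `g_i`) and `none` (for `J`). -/
inductive SolRel {m n : ℕ} (M : Matrix (Fin m) (Fin n) (ZMod 2)) (b : Fin m → ZMod 2) :
    FreeGroup (Option (Fin n)) → Prop
  | sqJ : SolRel M b (FreeGroup.of none ^ 2)
  | sq (i : Fin n) : SolRel M b (FreeGroup.of (some i) ^ 2)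
  | commJ (i : Fin n) : SolRel M b (FreeGroup.of none * FreeGroup.of (some i) *
      (FreeGroup.of (some i) * FreeGroup.of none)⁻¹)
  | comm (k : Fin m) (i j : Fin n) (hi : M k i = 1) (hj : M k j = 1) :
      SolRel M b (FreeGroup.of (some i) * FreeGroup.of (some j) *
        (FreeGroup.of (some j) * FreeGroup.of (some i))⁻¹)
  | prod (k : Fin m) : SolRel M b
      (((List.finRange n).map fun i => FreeGroup.of (some i) ^ (M k i).val).prod *
        (FreeGroup.of none ^ (b k).val)⁻¹)

/-- **The solution group `Γ(M, b)`.** -/
abbrev SolGroup {m n : ℕ} (M : Matrix (Fin m) (Fin n) (ZMod 2)) (b : Fin m → ZMod 2) : Type :=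
  PresentedGroup {w | SolRel M b w}

/-- the universal property of `A(G, H)` -/
theorem iso_universal {V W : Type} [Fintype V] [Fintype W] (G : SimpleGraph V)
    (H : SimpleGraph W) : IsoFamily G H (isoGen G H) ∧
      ∀ (B : Type) [CStarAlgebra B] (q : V × W → B), IsoFamily G H q →
        ∃! φ : IsoAlg G H →⋆ₐ[ℂ] B, ∀ x, φ (isoGen G H x) = q x := by
  refine ⟨?_, fun B _ q hq => exists_unique_lift _ B q hq⟩
  have key : ∀ {a b : IsoAlg G H}, (∀ i, a.1 i = b.1 i) → a = b := by
    intro a b h
    refine Subtype.ext (lp.ext ?_)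
    exact funext h
  constructor
  · exact fun g h => key fun i => i.rel.idem g h
  · exact fun g h => key fun i => i.rel.self g h
  · intro g
    refine key fun i => ?_
    have h1 := map_sum ((ev (R := fun A _ p => IsoFamily G H p) i).comp
      (UAlg (R := fun A _ p => IsoFamily G H p) (iso_bound G H)).subtype)
      (fun h => isoGen G H (g, h)) Finset.univ
    exact h1.trans (i.rel.row g)
  · intro h
    refine key fun i => ?_
    have h1 := map_sum ((ev (R := fun A _ p => IsoFamily G H p) i).comp
      (UAlg (R := fun A _ p => IsoFamily G H p) (iso_bound G H)).subtype)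
      (fun g => isoGen G H (g, h)) Finset.univ
    exact h1.trans (i.rel.col h)
  · exact fun g g' h h' hn => key fun i => i.rel.orth g g' h h' hn

/-- the universal property of `C*(Γ)` -/
theorem group_universal (Γ : Type) [Group Γ] : UnitaryRep (groupGen Γ) ∧
      ∀ (B : Type) [CStarAlgebra B] (u : Γ → B), UnitaryRep u →
        ∃! φ : GroupCStar Γ →⋆ₐ[ℂ] B, ∀ x, φ (groupGen Γ x) = u x := by
  refine ⟨?_, fun B _ q hq => exists_unique_lift _ B q hq⟩
  have key : ∀ {a b : GroupCStar Γ}, (∀ i, a.1 i = b.1 i) → a = b := by
    intro a b h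
    refine Subtype.ext (lp.ext ?_)
    exact funext h
  constructor
  · intro g
    rw [Unitary.mem_iff]
    exact ⟨key fun i => (Unitary.mem_iff.1 (i.rel.unit g)).1,
      key fun i => (Unitary.mem_iff.1 (i.rel.unit g)).2⟩
  · exact key fun i => i.rel.one
  · exact fun g h => key fun i => i.rel.mul g h

/-- `A`, with the elements `p (g, h)`, is **the isomorphism game algebra `A(G, H)`**, the
universal unital C*-algebra generated by elements `p (g, h)` with the relations `IsoFamily`: the
relations hold, the `p (g, h)` generate `A`, and every family with the relations in a unital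
C*-algebra `B` is the image of `p` under a unital *-homomorphism. -/
structure IsIsoAlg {V W : Type} [Fintype V] [Fintype W] (G : SimpleGraph V) (H : SimpleGraph W)
    {A : Type 1} [CStarAlgebra A] (p : V × W → A) : Prop where
  rel : IsoFamily G H p
  gen : (StarAlgebra.adjoin ℂ (Set.range p)).topologicalClosure = ⊤
  univ : ∀ (B : Type) [CStarAlgebra B] (q : V × W → B), IsoFamily G H q →
    ∃ φ : A →⋆ₐ[ℂ] B, ∀ x, φ (p x) = q x

/-- `C`, with the map `u`, is **the full C*-algebra `C*(Γ)` of the discrete group `Γ`**: `u` is a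
unitary representation, its values generate `C`, and every unitary representation of `Γ` in a
unital C*-algebra `B` is the composition of `u` and a unital *-homomorphism. -/
structure IsGroupAlg {Γ : Type} [Group Γ] {C : Type 1} [CStarAlgebra C] (u : Γ → C) : Prop where
  rel : UnitaryRep u
  gen : (StarAlgebra.adjoin ℂ (Set.range u)).topologicalClosure = ⊤
  univ : ∀ (B : Type) [CStarAlgebra B] (v : Γ → B), UnitaryRep v →
    ∃ φ : C →⋆ₐ[ℂ] B, ∀ x, φ (u x) = v x

theorem isIsoAlg {V W : Type} [Fintype V] [Fintype W] (G : SimpleGraph V) (H : SimpleGraph W) :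
    IsIsoAlg G H (isoGen G H) :=
  ⟨(iso_universal G H).1, gen_UAlg _, fun B _ q hq => ((iso_universal G H).2 B q hq).exists⟩

theorem isGroupAlg (Γ : Type) [Group Γ] : IsGroupAlg (groupGen Γ) :=
  ⟨(group_universal Γ).1, gen_UAlg _, fun B _ q hq => ((group_universal Γ).2 B q hq).exists⟩

end Pool.Agent.V11225.GI
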