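import Pool.Agent.V11225.GI.Square

/-!
# The algebra of the pair of magic square graphs
-/

namespace Pool.Agent.V11225.GI

open scoped ENNReal CStarAlgebra

/-! ## The algebra is not zero -/

/-- the integer matrix `4 p (g, h)` -/
def P4 (x : Vx × Vx) : Matrix (Fin 4) (Fin 4) ℤ :=
  if x.1.1 = x.2.1 ∧ x.1.2.1 = x.2.2.1 then
    F x.1.1 x.1.2.1 (xor x.1.2.2.1 x.2.2.2.1) (xor x.1.2.2.2 x.2.2.2.2)
  else 0

theorem P4_sq : ∀ x, P4 x * P4 x = 4 • P4 x := by
  rintro ⟨⟨o, j, x, y⟩, ⟨o', j', x', y'⟩⟩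
  unfold P4
  split_ifs
  · exact F_sq _ _ _ _
  · simp

theorem P4_tr : ∀ x, (P4 x).transpose = P4 x := by
  rintro ⟨⟨o, j, x, y⟩, ⟨o', j', x', y'⟩⟩
  unfold P4
  split_ifs
  · exact F_tr _ _ _ _
  · simp

theorem P4_row : ∀ g, ∑ h, P4 (g, h) = 4 • (1 : Matrix (Fin 4) (Fin 4) ℤ) := by
  decide +kernel

theorem P4_col : ∀ h, ∑ g, P4 (g, h) = 4 • (1 : Matrix (Fin 4) (Fin 4) ℤ) := by
  decide +kernel

theorem logic : ∀ o j x y x' y' o' j' u v u' v',
    ¬ (((o, j, x, y) = ((o', j', u, v) : Vx) ↔ (o, j, x', y') = ((o', j', u', v') : Vx)) ∧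
      (adjB true (o, j, x, y) (o', j', u, v) = true ↔
        adjB false (o, j, x', y') (o', j', u', v') = true)) →
    ((o = o' ∧ j = j') ∧ (xor x x' ≠ xor u u' ∨ xor y y' ≠ xor v v')) ∨
      (o' = !o ∧ val true (o, j, xor x x', xor y y') j' ≠
        val true (!o, j', xor u u', xor v v') j) := by
  decide +kernel

theorem P4_orth (g g' h h' : Vx) (hn : ¬ ((g = g' ↔ h = h') ∧
    ((sqGraph true).Adj g g' ↔ (sqGraph false).Adj h h'))) : P4 (g, h) * P4 (g', h') = 0 := by
  obtain ⟨o, j, x, y⟩ := g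
  obtain ⟨o', j', u, v⟩ := g'
  obtain ⟨o1, j1, x', y'⟩ := h
  obtain ⟨o2, j2, u', v'⟩ := h'
  unfold P4
  by_cases h1 : o = o1 ∧ j = j1
  · by_cases h2 : o' = o2 ∧ j' = j2
    · rw [if_pos h1, if_pos h2]
      obtain ⟨rfl, rfl⟩ := h1
      obtain ⟨rfl, rfl⟩ := h2
      rcases logic o j x y x' y' o' j' u v u' v' hn with ⟨⟨rfl, rfl⟩, h3⟩ | ⟨h3, h4⟩
      · exact F_or1 _ _ _ _ _ _ h3
      · subst h3
        exact F_or2 _ _ _ _ _ _ _ h4
    · rw [if_neg h2, mul_zero]
  · rw [if_neg h1, zero_mul]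

section

open scoped Matrix.Norms.L2Operator

/-- from integer to complex matrices -/
noncomputable def toC : Matrix (Fin 4) (Fin 4) ℤ →+* Matrix (Fin 4) (Fin 4) ℂ :=
  (Int.castRingHom ℂ).mapMatrix

/-- the family in the algebra of the `4 × 4` matrices -/
noncomputable def pM (x : Vx × Vx) : Matrix (Fin 4) (Fin 4) ℂ := (1 / 4 : ℂ) • toC (P4 x)

theorem pM_family : IsoFamily (sqGraph true) (sqGraph false) pM := by
  have h4 : ∀ a : Matrix (Fin 4) (Fin 4) ℤ, toC (4 • a) = (4 : ℂ) • toC a := by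
    intro a
    rw [map_nsmul]
    ext i j
    simp
  constructor
  · intro g h
    unfold pM
    rw [smul_mul_smul_comm, ← map_mul, P4_sq, h4, smul_smul]
    congr 1
    norm_num
  · intro g h
    unfold pM
    rw [star_smul]
    congr 1
    · simp
    · have h1 := P4_tr (g, h)
      ext i j
      have h2 : P4 (g, h) j i = P4 (g, h) i j := by
        conv_rhs => rw [← h1]
        rfl
      simp [toC, Matrix.star_apply, h2]
  · intro g
    unfold pM
    rw [← Finset.smul_sum, ← map_sum, P4_row, h4, smul_smul, map_one]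
    norm_num
  · intro h
    unfold pM
    rw [← Finset.smul_sum, ← map_sum, P4_col, h4, smul_smul, map_one]
    norm_num
  · intro g g' h h' hn
    unfold pM
    rw [smul_mul_smul_comm, ← map_mul, P4_orth g g' h h' hn, map_zero, smul_zero]

theorem iso_nontrivial {A : Type 1} [CStarAlgebra A] {p : Vx × Vx → A}
    (hp : IsIsoAlg (sqGraph true) (sqGraph false) p) : Nontrivial A := by
  obtain ⟨φ, _⟩ := hp.univ (Matrix (Fin 4) (Fin 4) ℂ) pM pM_family
  refine ⟨1, 0, fun h => ?_⟩
  have h1 := congrArg φ h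
  rw [map_one, map_zero] at h1
  exact one_ne_zero h1

end

/-! ## There is no character -/

theorem parity : ∀ a0 b0 a1 b1 a2 b2 c0 d0 c1 d1 c2 d2 : Bool,
    ¬ (val true (false, 0, a0, b0) 0 = val true (true, 0, c0, d0) 0 ∧
      val true (false, 0, a0, b0) 1 = val true (true, 1, c1, d1) 0 ∧
      val true (false, 0, a0, b0) 2 = val true (true, 2, c2, d2) 0 ∧
      val true (false, 1, a1, b1) 0 = val true (true, 0, c0, d0) 1 ∧
      val true (false, 1, a1, b1) 1 = val true (true, 1, c1, d1) 1 ∧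
      val true (false, 1, a1, b1) 2 = val true (true, 2, c2, d2) 1 ∧
      val true (false, 2, a2, b2) 0 = val true (true, 0, c0, d0) 2 ∧
      val true (false, 2, a2, b2) 1 = val true (true, 1, c1, d1) 2 ∧
      val true (false, 2, a2, b2) 2 = val true (true, 2, c2, d2) 2) := by
  decide +kernel

/-- the graph of the magic square has no independent set of size six -/
theorem no_indep (f : Bool × Fin 3 → Vx)
    (hf : ∀ a b, a ≠ b → f a ≠ f b ∧ adjB true (f a) (f b) = false) : False := by
  -- the classes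
  have hcl : Function.Injective fun a => ((f a).1, (f a).2.1) := by
    intro a b hab
    by_contra hne
    obtain ⟨h1, h2⟩ := hf a b hne
    simp only [Prod.mk.injEq] at hab
    unfold adjB at h2
    simp [hab.1, hab.2, h1] at h2
  have hsur := Finite.surjective_of_injective hcl
  have hex : ∀ c : Bool × Fin 3, ∃ x y : Bool, ∃ a, f a = (c.1, c.2, x, y) := by
    intro c
    obtain ⟨a, ha⟩ := hsur c
    refine ⟨(f a).2.2.1, (f a).2.2.2, a, ?_⟩
    rw [← ha]
  choose x y g hg using hex
  have key : ∀ i j : Fin 3, val true (false, i, x (false, i), y (false, i)) j =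
      val true (true, j, x (true, j), y (true, j)) i := by
    intro i j
    have hne : g (false, i) ≠ g (true, j) := by
      intro h
      have h1 := hg (false, i)
      rw [h, hg (true, j)] at h1
      simp at h1
    have h2 := (hf _ _ hne).2
    rw [hg, hg] at h2
    unfold adjB at h2
    simp only [Bool.or_eq_false_iff] at h2
    simpa using h2.2
  exact parity _ _ _ _ _ _ _ _ _ _ _ _ ⟨key 0 0, key 0 1, key 0 2, key 1 0, key 1 1, key 1 2,
    key 2 0, key 2 1, key 2 2⟩

theorem no_char (c : Vx × Vx → ℂ) (hc : IsoFamily (sqGraph true) (sqGraph false) c) : False := by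
  have hcol : ∀ h, ∃ g, c (g, h) ≠ 0 := by
    intro h
    by_contra hn
    push Not at hn
    have := hc.col h
    simp [hn] at this
  choose g hg using hcol
  let z : Bool × Fin 3 → Vx := fun a => (a.1, a.2, false, false)
  refine no_indep (fun a => g (z a)) fun a b hab => ?_
  have hz : z a ≠ z b := by
    intro h
    apply hab
    simp only [z, Prod.mk.injEq] at h
    exact Prod.ext h.1 h.2.1
  have hzadj : ¬ (sqGraph false).Adj (z a) (z b) := by
    have : ∀ a b : Bool × Fin 3, adjB false (a.1, a.2, false, false) (b.1, b.2, false, false) =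
        false := by decide +kernel
    intro h
    have h1 := this a b
    rw [show adjB false (a.1, a.2, false, false) (b.1, b.2, false, false) = true from h] at h1
    exact Bool.noConfusion h1
  have h1 : (g (z a) = g (z b) ↔ z a = z b) ∧
      ((sqGraph true).Adj (g (z a)) (g (z b)) ↔ (sqGraph false).Adj (z a) (z b)) := by
    by_contra hn
    have := hc.orth _ _ _ _ hn
    exact mul_ne_zero (hg _) (hg _) this
  refine ⟨fun h => hz (h1.1.1 h), ?_⟩
  by_contra hn
  exact hzadj (h1.2.1 (show adjB true (g (z a)) (g (z b)) = true by simpa using hn))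

theorem IsoFamily.map {V W : Type} [Fintype V] [Fintype W] {G : SimpleGraph V}
    {H : SimpleGraph W} {A B : Type*} [CStarAlgebra A] [CStarAlgebra B] {p : V × W → A}
    (hp : IsoFamily G H p) (φ : A →⋆ₐ[ℂ] B) : IsoFamily G H (fun x => φ (p x)) := by
  constructor
  · intro g h
    rw [← map_mul, hp.idem]
  · intro g h
    rw [← map_star, hp.self]
  · intro g
    rw [← map_sum, hp.row, map_one]
  · intro h
    rw [← map_sum, hp.col, map_one]
  · intro g g' h h' hn
    rw [← map_mul, hp.orth g g' h h' hn, map_zero]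

theorem no_hom {A : Type 1} [CStarAlgebra A] {p : Vx × Vx → A}
    (hp : IsIsoAlg (sqGraph true) (sqGraph false) p) (Γ : Type) [Group Γ] (C : Type 1)
    [CStarAlgebra C] (u : Γ → C) (hu : IsGroupAlg u) : IsEmpty (A →⋆ₐ[ℂ] C) := by
  refine ⟨fun ψ => ?_⟩
  -- the trivial character
  obtain ⟨χ, _⟩ := hu.univ ℂ (fun _ => 1) ⟨fun _ => one_mem _, rfl, fun _ _ => (mul_one 1).symm⟩
  exact no_char _ (hp.rel.map (χ.comp ψ))

end Pool.Agent.V11225.GI
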