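import Pool.Agent.V11225.GI.Defs

/-!
# The graphs of the magic square
-/

namespace Pool.Agent.V11225.GI

open scoped ENNReal CStarAlgebra

/-- The vertices: `(o, j, x, y)` is the `j`-th equation of type `o` (row or column) with a local
solution whose first two values are `x` and `y`. -/
abbrev Vx := Bool × Fin 3 × Bool × Bool

/-- the right-hand sides: all zero if `b` is `false`; the last column is one if `b` is `true` -/
def rhs (b o : Bool) (j : Fin 3) : Bool := b && o && decide (j = 2)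

/-- the `i`-th value of a local solution -/
def val (b : Bool) (v : Vx) (i : Fin 3) : Bool :=
  if i = 0 then v.2.2.1 else if i = 1 then v.2.2.2 else
    xor (xor v.2.2.1 v.2.2.2) (rhs b v.1 v.2.1)

/-- adjacent: different local solutions of the same equation, or local solutions of a row and a
column which differ on the common variable -/
def adjB (b : Bool) (v w : Vx) : Bool :=
  (decide (v.1 = w.1) && decide (v.2.1 = w.2.1) && !decide (v = w)) ||
    (!decide (v.1 = w.1) && !decide (val b v w.2.1 = val b w v.2.1))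

/-- the graph of the magic square (`b = true`) and of its homogeneous version -/
def sqGraph (b : Bool) : SimpleGraph Vx where
  Adj v w := adjB b v w = true
  symm := ⟨by cases b <;> decide +kernel⟩
  loopless := ⟨by cases b <;> decide +kernel⟩

/-- the first two operators of an equation -/
def op (o : Bool) (j : Fin 3) : Matrix (Fin 4) (Fin 4) ℤ × Matrix (Fin 4) (Fin 4) ℤ :=
  let XI : Matrix (Fin 4) (Fin 4) ℤ := !![0, 0, 1, 0; 0, 0, 0, 1; 1, 0, 0, 0; 0, 1, 0, 0]
  let IX : Matrix (Fin 4) (Fin 4) ℤ := !![0, 1, 0, 0; 1, 0, 0, 0; 0, 0, 0, 1; 0, 0, 1, 0]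
  let XX : Matrix (Fin 4) (Fin 4) ℤ := !![0, 0, 0, 1; 0, 0, 1, 0; 0, 1, 0, 0; 1, 0, 0, 0]
  let IZ : Matrix (Fin 4) (Fin 4) ℤ := !![1, 0, 0, 0; 0, -1, 0, 0; 0, 0, 1, 0; 0, 0, 0, -1]
  let ZI : Matrix (Fin 4) (Fin 4) ℤ := !![1, 0, 0, 0; 0, 1, 0, 0; 0, 0, -1, 0; 0, 0, 0, -1]
  let ZZ : Matrix (Fin 4) (Fin 4) ℤ := !![1, 0, 0, 0; 0, -1, 0, 0; 0, 0, -1, 0; 0, 0, 0, 1]
  let XZ : Matrix (Fin 4) (Fin 4) ℤ := !![0, 0, 1, 0; 0, 0, 0, -1; 1, 0, 0, 0; 0, -1, 0, 0]
  let ZX : Matrix (Fin 4) (Fin 4) ℤ := !![0, 1, 0, 0; 1, 0, 0, 0; 0, 0, 0, -1; 0, 0, -1, 0]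
  match o, j with
  | false, 0 => (XI, IX)
  | false, 1 => (IZ, ZI)
  | false, 2 => (XZ, ZX)
  | true, 0 => (XI, IZ)
  | true, 1 => (IX, ZI)
  | true, 2 => (XX, ZZ)

/-- four times the projection on the joint eigenspace -/
def F (o : Bool) (j : Fin 3) (s t : Bool) : Matrix (Fin 4) (Fin 4) ℤ :=
  (if s then 1 - (op o j).1 else 1 + (op o j).1) *
    (if t then 1 - (op o j).2 else 1 + (op o j).2)

theorem F_sq : ∀ o j s t, F o j s t * F o j s t = 4 • F o j s t := by decide +kernel

theorem F_tr : ∀ o j s t, (F o j s t).transpose = F o j s t := by decide +kernel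

theorem F_sum : ∀ o j, F o j false false + F o j false true + F o j true false +
    F o j true true = 4 • (1 : Matrix (Fin 4) (Fin 4) ℤ) := by decide +kernel

theorem F_or1 : ∀ o j s t s' t', (s ≠ s' ∨ t ≠ t') → F o j s t * F o j s' t' = 0 := by
  decide +kernel

theorem F_or2 : ∀ o j j' s t s' t', val true (o, j, s, t) j' ≠ val true (!o, j', s', t') j →
    F o j s t * F (!o) j' s' t' = 0 := by
  decide +kernel

end Pool.Agent.V11225.GI
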