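import Mathlib

/-!
# Universal C*-algebras given by generators and relations

The relations are any predicate on families in unital C*-algebras which forces the generators to
be contractions.
-/

namespace Pool.Agent.V11225.GI

open scoped ENNReal CStarAlgebra

/-- a family in a nonzero unital C*-algebra which satisfies the relations `R` -/
structure CRep {X : Type} (R : ∀ (A : Type) [CStarAlgebra A], (X → A) → Prop) : Type 1 where
  /-- the algebra -/
  A : Type
  /-- it is a C*-algebra -/
  [cs : CStarAlgebra A]
  [nt : Nontrivial A]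
  /-- the family -/
  a : X → A
  rel : R A a

attribute [instance] CRep.cs CRep.nt

noncomputable instance {I : Type*} {A : I → Type*} [∀ i, Nontrivial (A i)]
    [∀ i, CStarAlgebra (A i)] : CStarAlgebra (lp A ∞) where

section

variable {X : Type} {R : ∀ (A : Type) [CStarAlgebra A], (X → A) → Prop}

/-- the generators of the universal C*-algebra -/
noncomputable def gen0 (hR : ∀ (A : Type) [CStarAlgebra A] (a : X → A), R A a → ∀ x, ‖a x‖ ≤ 1)
    (x : X) : lp (fun i : CRep R => i.A) ∞ :=
  ⟨fun i => i.a x, memℓp_infty ⟨1, by rintro _ ⟨i, rfl⟩; exact hR _ _ i.rel x⟩⟩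

/-- the universal C*-algebra: the closed unital *-subalgebra which the generators generate in the
product (the algebra of all bounded families) over all families which satisfy the relations -/
noncomputable def UAlg (hR : ∀ (A : Type) [CStarAlgebra A] (a : X → A), R A a → ∀ x, ‖a x‖ ≤ 1) :
    StarSubalgebra ℂ (lp (fun i : CRep R => i.A) ∞) :=
  (StarAlgebra.adjoin ℂ (Set.range (gen0 hR))).topologicalClosure

variable (hR : ∀ (A : Type) [CStarAlgebra A] (a : X → A), R A a → ∀ x, ‖a x‖ ≤ 1)

noncomputable instance : CStarAlgebra (UAlg hR) :=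
  StarSubalgebra.cstarAlgebra _ (h_closed := StarSubalgebra.isClosed_topologicalClosure _)

/-- the generators -/
noncomputable def gen (x : X) : UAlg hR :=
  ⟨gen0 hR x, StarSubalgebra.le_topologicalClosure _
    (StarAlgebra.subset_adjoin ℂ _ (Set.mem_range_self x))⟩

/-- evaluation at a family -/
noncomputable def ev (i : CRep R) : lp (fun i : CRep R => i.A) ∞ →⋆ₐ[ℂ] i.A where
  toFun f := f i
  map_one' := rfl
  map_mul' _ _ := rfl
  map_zero' := rfl
  map_add' _ _ := rfl
  commutes' _ := rfl
  map_star' _ := rfl

theorem ext_UAlg {B : Type*} [CStarAlgebra B] {φ ψ : UAlg hR →⋆ₐ[ℂ] B}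
    (h : ∀ x, φ (gen hR x) = ψ (gen hR x)) : φ = ψ := by
  refine StarAlgHom.ext_topologicalClosure (map_continuous φ) (map_continuous ψ) ?_
  refine StarAlgHom.ext_adjoin ?_
  rintro ⟨y, hy⟩ ⟨x, hx⟩
  subst hx
  exact h x

/-- the universal property -/
theorem exists_unique_lift (B : Type) [CStarAlgebra B] (b : X → B) (hb : R B b) :
    ∃! φ : UAlg hR →⋆ₐ[ℂ] B, ∀ x, φ (gen hR x) = b x := by
  refine existsUnique_of_exists_of_unique ?_ ?_
  · rcases subsingleton_or_nontrivial B with hB | hB
    · exact ⟨
        { toFun := fun _ => 0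
          map_one' := Subsingleton.elim _ _
          map_mul' := fun _ _ => Subsingleton.elim _ _
          map_zero' := rfl
          map_add' := fun _ _ => Subsingleton.elim _ _
          commutes' := fun _ => Subsingleton.elim _ _
          map_star' := fun _ => Subsingleton.elim _ _ }, fun _ => Subsingleton.elim _ _⟩
    · exact ⟨(ev (R := R) ⟨B, b, hb⟩).comp (UAlg hR).subtype, fun x => rfl⟩
  · intro φ ψ h1 h2
    exact ext_UAlg hR fun x => by rw [h1, h2]

/-- the generators generate the universal C*-algebra -/
theorem gen_UAlg : (StarAlgebra.adjoin ℂ (Set.range (gen hR))).topologicalClosure = ⊤ := by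
  set T := (StarAlgebra.adjoin ℂ (Set.range (gen hR))).topologicalClosure with hT
  have hcl : IsClosed (T.map (UAlg hR).subtype : Set (lp (fun i : CRep R => i.A) ∞)) := by
    rw [StarSubalgebra.coe_map]
    have h1 : IsClosed (UAlg hR : Set (lp (fun i : CRep R => i.A) ∞)) :=
      StarSubalgebra.isClosed_topologicalClosure _
    exact h1.isClosedEmbedding_subtypeVal.isClosedMap _
      (StarSubalgebra.isClosed_topologicalClosure _)
  have hle : StarAlgebra.adjoin ℂ (Set.range (gen0 hR)) ≤ T.map (UAlg hR).subtype := by
    rw [StarAlgebra.adjoin_le_iff]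
    rintro _ ⟨x, rfl⟩
    exact ⟨gen hR x, StarSubalgebra.le_topologicalClosure _
      (StarAlgebra.subset_adjoin ℂ _ (Set.mem_range_self x)), rfl⟩
  have h2 : UAlg hR ≤ T.map (UAlg hR).subtype :=
    StarSubalgebra.topologicalClosure_minimal hle hcl
  rw [eq_top_iff]
  intro a _
  obtain ⟨b, hb, hab⟩ := h2 a.2
  have : b = a := Subtype.ext hab
  rw [← this]
  exact hb

theorem nontrivial_UAlg (i : CRep R) : Nontrivial (UAlg hR) := by
  refine ⟨1, 0, fun h => ?_⟩
  have h1 := congrArg (fun f : UAlg hR => (f : lp (fun i : CRep R => i.A) ∞) i) h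
  exact one_ne_zero h1

end

end Pool.Agent.V11225.GI
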